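import Pool.Agent.Helper9.MP.Lat

/-!
# MP_bde085_nt, block D, module CNTB: number of eigenvectors modulo `N` of a matrix of trace zero
-/

set_option autoImplicit false

namespace Pool.Agent.Helper96.MP

theorem cntb_bez {N : ℕ} {s t : ℤ} (h : Uni N s t) : ∃ u v w : ℤ, u * s + v * t + w * N = 1 := by
  have h1 : IsCoprime ((Int.gcd s t : ℕ) : ℤ) (N : ℤ) := by
    rw [Int.isCoprime_iff_gcd_eq_one]
    exact h
  obtain ⟨a, b, hab⟩ := h1
  have h2 := Int.gcd_eq_gcd_ab s t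
  refine ⟨a * Int.gcdA s t, a * Int.gcdB s t, b, ?_⟩
  rw [h2] at hab
  linear_combination hab

/-- two points with vanishing determinant are equal -/
theorem cntb_eqv {N : ℕ} {s t s' t' : ℤ} (h : Uni N s t) (h' : Uni N s' t')
    (hd : (N : ℤ) ∣ s * t' - t * s') : eqv N s t s' t' := by
  obtain ⟨u, v, w, h1⟩ := cntb_bez h
  obtain ⟨u', v', w', h1'⟩ := cntb_bez h'
  obtain ⟨k, hk⟩ := hd
  refine ⟨u * s' + v * t', ?_, ?_, ?_⟩
  · refine ⟨u' * s + v' * t, w' + w * (u' * s' + v' * t') - k * (u' * v - v' * u), ?_⟩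
    linear_combination h1' + (u' * s' + v' * t') * h1 + (u' * v - v' * u) * hk
  · refine ⟨-(v * k) + w * s', ?_⟩
    linear_combination (-s') * h1 - v * hk
  · refine ⟨u * k + w * t', ?_⟩
    linear_combination (-t') * h1 + u * hk

theorem cntb_sq {N : ℕ} {s t a b c n Q μ : ℤ} (h : Uni N s t) (hdet : -(a * a) - b * c = n * Q)
    (h1 : (N : ℤ) ∣ s * a + t * c - μ * s) (h2 : (N : ℤ) ∣ s * b + t * (-a) - μ * t) :
    (N : ℤ) ∣ μ * μ + n * Q := by
  obtain ⟨u, v, w, hb⟩ := cntb_bez h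
  obtain ⟨k1, hk1⟩ := h1
  obtain ⟨k2, hk2⟩ := h2
  have e1 : (N : ℤ) ∣ s * (μ * μ + n * Q) := by
    refine ⟨-(k1 * a + k2 * c + μ * k1), ?_⟩
    linear_combination (-a - μ) * hk1 - c * hk2 - s * hdet
  have e2 : (N : ℤ) ∣ t * (μ * μ + n * Q) := by
    refine ⟨-(k1 * b - k2 * a + μ * k2), ?_⟩
    linear_combination (-b) * hk1 + (a - μ) * hk2 - t * hdet
  have e3 : μ * μ + n * Q = u * (s * (μ * μ + n * Q)) + v * (t * (μ * μ + n * Q)) +
      N * (w * (μ * μ + n * Q)) := by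
    linear_combination (-(μ * μ + n * Q)) * hb
  rw [e3]
  exact dvd_add (dvd_add (Dvd.dvd.mul_left e1 u) (Dvd.dvd.mul_left e2 v)) (dvd_mul_right _ _)

/-- the determinant of two eigenvectors for the same eigenvalue -/
theorem cntb_det {N Q N' : ℕ} (hQ0 : (Q : ℤ) ≠ 0) (hN : N = Q * N') (hco : Nat.Coprime Q N') {s t s' t' a b c n μ μ' : ℤ}
    (hn : IsCoprime n (N : ℤ)) (h : Uni N s t) (hdet : -(a * a) - b * c = n * Q)
    (hQ : (Q : ℤ) ∣ μ)
    (h1 : (N : ℤ) ∣ s * a + t * c - μ * s) (h2 : (N : ℤ) ∣ s * b + t * (-a) - μ * t)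
    (h1' : (N : ℤ) ∣ s' * a + t' * c - μ' * s') (h2' : (N : ℤ) ∣ s' * b + t' * (-a) - μ' * t')
    (hμ : (N : ℤ) ∣ μ' - μ) : (N : ℤ) ∣ 2 * (s * t' - t * s') := by
  have hQN : (Q : ℤ) ∣ (N : ℤ) := by
    rw [hN]
    exact ⟨(N' : ℤ), by push_cast; ring⟩
  have hNN : (N' : ℤ) ∣ (N : ℤ) := by
    rw [hN]
    exact ⟨(Q : ℤ), by push_cast; ring⟩
  set D : ℤ := s * t' - t * s' with hD
  have hsq := cntb_sq h hdet h1 h2
  obtain ⟨k1, hk1⟩ := h1
  obtain ⟨k2, hk2⟩ := h2
  obtain ⟨k1', hk1'⟩ := h1'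
  obtain ⟨k2', hk2'⟩ := h2'
  obtain ⟨m, hm⟩ := hμ
  have d1 : (N : ℤ) ∣ D * (a - μ) := by
    refine ⟨t' * k1 - t * (k1' + m * s'), ?_⟩
    rw [hD]
    linear_combination t' * hk1 - t * hk1' - t * s' * hm
  have d2 : (N : ℤ) ∣ D * c := by
    refine ⟨s * (k1' + m * s') - s' * k1, ?_⟩
    rw [hD]
    linear_combination s * hk1' + s * s' * hm - s' * hk1
  have d3 : (N : ℤ) ∣ D * b := by
    refine ⟨t' * k2 - t * (k2' + m * t'), ?_⟩
    rw [hD]
    linear_combination t' * hk2 - t * hk2' - t * t' * hm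
  have d4 : (N : ℤ) ∣ D * (-a - μ) := by
    refine ⟨s * (k2' + m * t') - s' * k2, ?_⟩
    rw [hD]
    linear_combination s * hk2' + s * t' * hm - s' * hk2
  -- the part prime to `Q`
  have p1 : (N' : ℤ) ∣ 2 * D := by
    have e1 : (N : ℤ) ∣ (2 * D) * μ := by
      have e2 : (2 * D) * μ = -(D * (a - μ) + D * (-a - μ)) := by ring
      rw [e2]
      exact (dvd_add d1 d4).neg_right
    have e3 : IsCoprime (μ * μ) (N' : ℤ) := by
      obtain ⟨k, hk⟩ := hsq
      have e4 : μ * μ = -(n * Q) + (N' : ℤ) * (Q * k) := by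
        have : (N : ℤ) = Q * N' := by rw [hN]; push_cast; ring
        rw [this] at hk
        linear_combination hk
      rw [e4]
      have e5 : IsCoprime (-(n * (Q : ℤ))) (N' : ℤ) := by
        refine IsCoprime.neg_left ?_
        refine IsCoprime.mul_left ?_ ?_
        · exact IsCoprime.of_isCoprime_of_dvd_right hn hNN
        · exact Nat.isCoprime_iff_coprime.2 hco
      exact e5.add_mul_left_left _
    have e6 : IsCoprime (N' : ℤ) μ := (IsCoprime.of_mul_left_left e3).symm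
    exact e6.dvd_of_dvd_mul_right (hNN.trans e1)
  -- the `Q` part
  have p2 : (Q : ℤ) ∣ D := by
    obtain ⟨q, hq⟩ := hQ
    have q1 : (Q : ℤ) ∣ D * a := by
      have e : D * a = D * (a - μ) + Q * (D * q) := by rw [hq]; ring
      rw [e]
      exact dvd_add (hQN.trans d1) (dvd_mul_right _ _)
    have q2 : (Q : ℤ) ∣ D * b := hQN.trans d3
    have q3 : (Q : ℤ) ∣ D * c := hQN.trans d2
    have r1 : (Q : ℤ) ∣ s * a + t * c := by
      have e : s * a + t * c = N * k1 + Q * (q * s) := by linear_combination hk1 + s * hq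
      rw [e]
      exact dvd_add (hQN.mul_right _) (dvd_mul_right _ _)
    have r2 : (Q : ℤ) ∣ s * b + t * (-a) := by
      have e : s * b + t * (-a) = N * k2 + Q * (q * t) := by linear_combination hk2 + t * hq
      rw [e]
      exact dvd_add (hQN.mul_right _) (dvd_mul_right _ _)
    obtain ⟨v0, u0, w, hb⟩ := cntb_bez h
    -- `u = -u0`, `v = v0`
    have m1 : (Q : ℤ) * Q ∣ (s * a + t * c) * (D * b * (-u0) - D * a * v0) := by
      refine mul_dvd_mul r1 ?_
      exact dvd_sub (q2.mul_right _) (q1.mul_right _)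
    have m2 : (Q : ℤ) * Q ∣ (s * b + t * (-a)) * (D * a * (-u0) + D * c * v0) := by
      refine mul_dvd_mul r2 ?_
      exact dvd_add (q1.mul_right _) (q3.mul_right _)
    have m3 : (Q : ℤ) * Q ∣ Q * (D * ((1 - w * N) * n)) := by
      have e : Q * (D * ((1 - w * N) * n)) = (s * a + t * c) * (D * b * (-u0) - D * a * v0) -
          (s * b + t * (-a)) * (D * a * (-u0) + D * c * v0) := by
        linear_combination (-(D * (1 - w * N))) * hdet - D * (-(a * a) - b * c) * hb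
      rw [e]
      exact dvd_sub m1 m2
    have m4 : (Q : ℤ) ∣ D * ((1 - w * N) * n) := Int.dvd_of_mul_dvd_mul_left hQ0 m3
    have c1 : IsCoprime (Q : ℤ) (1 - w * N) := by
      obtain ⟨j, hj⟩ := hQN
      refine ⟨w * j, 1, ?_⟩
      rw [hj]
      ring
    have c2 : IsCoprime (Q : ℤ) n := (IsCoprime.of_isCoprime_of_dvd_right hn hQN).symm
    exact (c1.mul_right c2).dvd_of_dvd_mul_right m4
  have p3 : (Q : ℤ) ∣ 2 * D := p2.mul_left 2
  have hc : IsCoprime (Q : ℤ) (N' : ℤ) := Nat.isCoprime_iff_coprime.2 hco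
  have := hc.mul_dvd p3 p1
  rw [hN]
  push_cast
  exact this

theorem cntb_unit {N Q N' : ℕ} (hN : N = Q * N') (hco : Nat.Coprime Q N') {s t a b c n μ : ℤ}
    (hn : IsCoprime n (N : ℤ)) (h : Uni N s t) (hdet : -(a * a) - b * c = n * Q)
    (h1 : (N : ℤ) ∣ s * a + t * c - μ * s) (h2 : (N : ℤ) ∣ s * b + t * (-a) - μ * t) :
    IsCoprime μ (N' : ℤ) := by
  have hNN : (N' : ℤ) ∣ (N : ℤ) := by
    rw [hN]
    exact ⟨(Q : ℤ), by push_cast; ring⟩
  have e3 : IsCoprime (μ * μ) (N' : ℤ) := by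
    obtain ⟨k, hk⟩ := cntb_sq h hdet h1 h2
    have e4 : μ * μ = -(n * Q) + (N' : ℤ) * (Q * k) := by
      have : (N : ℤ) = Q * N' := by rw [hN]; push_cast; ring
      rw [this] at hk
      linear_combination hk
    rw [e4]
    have e5 : IsCoprime (-(n * (Q : ℤ))) (N' : ℤ) := by
      refine IsCoprime.neg_left ?_
      refine IsCoprime.mul_left ?_ ?_
      · exact IsCoprime.of_isCoprime_of_dvd_right hn hNN
      · exact Nat.isCoprime_iff_coprime.2 hco
    exact e5.add_mul_left_left _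
  exact IsCoprime.of_mul_left_left e3

/-- points with pairwise determinants killed by `2` -/
theorem cntb_six {N : ℕ} (hN : 1 ≤ N) (S : Finset (PN N)) (s t : PN N → ℤ)
    (hu : ∀ x ∈ S, ∃ h : Uni N (s x) (t x), x = Quotient.mk (sPN N) ⟨(s x, t x), h⟩)
    (hd : ∀ x ∈ S, ∀ y ∈ S, (N : ℤ) ∣ 2 * (s x * t y - t x * s y)) : S.card ≤ 6 := by
  classical
  have inj : ∀ x ∈ S, ∀ y ∈ S, (N : ℤ) ∣ s x * t y - t x * s y → x = y := by
    intro x hx y hy hxy
    obtain ⟨h1, e1⟩ := hu x hx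
    obtain ⟨h2, e2⟩ := hu y hy
    rw [e1, e2]
    exact Quotient.sound (cntb_eqv h1 h2 hxy)
  rcases Nat.even_or_odd' N with ⟨M, hM | hM⟩
  · have hM0 : (M : ℤ) ≠ 0 := by
      intro h0
      have : M = 0 := by exact_mod_cast h0
      omega
    have hNM : (N : ℤ) = 2 * M := by rw [hM]; push_cast; ring
    -- odd multiples of `M`
    have hodd : ∀ x ∈ S, ∀ y ∈ S, x ≠ y → ∃ j : ℤ, s x * t y - t x * s y = M * (2 * j + 1) := by
      intro x hx y hy hxy
      obtain ⟨k, hk⟩ := hd x hx y hy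
      have hk' : s x * t y - t x * s y = M * k := by
        rw [hNM] at hk
        have : (2 : ℤ) * (s x * t y - t x * s y) = 2 * (M * k) := by linear_combination hk
        exact mul_left_cancel₀ two_ne_zero this
      rcases Int.even_or_odd' k with ⟨j, hj | hj⟩
      · exfalso
        apply hxy
        apply inj x hx y hy
        refine ⟨j, ?_⟩
        rw [hk', hj, hNM]
        ring
      · exact ⟨j, by rw [hk', hj]⟩
    have hne : ∀ x ∈ S, ¬ (s x % 2 = 0 ∧ t x % 2 = 0) := by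
      rintro x hx ⟨h1, h2⟩
      obtain ⟨h3, -⟩ := hu x hx
      obtain ⟨u, v, w, hb⟩ := cntb_bez h3
      obtain ⟨p, hp⟩ := Int.dvd_of_emod_eq_zero h1
      obtain ⟨q, hq⟩ := Int.dvd_of_emod_eq_zero h2
      rw [hp, hq, hNM] at hb
      have : (2 : ℤ) * (u * p + v * q + w * M) = 1 := by linear_combination hb
      omega
    let f : PN N → ℤ × ℤ := fun x => (s x % 2, t x % 2)
    have hmaps : ∀ x ∈ S, f x ∈ ({(0, 1), (1, 0), (1, 1)} : Finset (ℤ × ℤ)) := by
      intro x hx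
      have h1 := hne x hx
      have h2 := Int.emod_two_eq_zero_or_one (s x)
      have h3 := Int.emod_two_eq_zero_or_one (t x)
      simp only [f, Finset.mem_insert, Finset.mem_singleton, Prod.mk.injEq]
      omega
    have hcard := Finset.card_le_mul_card_image_of_maps_to hmaps 2 ?_
    · refine hcard.trans ?_
      have : ({(0, 1), (1, 0), (1, 1)} : Finset (ℤ × ℤ)).card ≤ 3 := Finset.card_le_three
      omega
    · intro e _
      by_contra hcon
      rw [not_le, Finset.two_lt_card] at hcon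
      obtain ⟨x, hx, y, hy, z, hz, hxy, hxz, hyz⟩ := hcon
      rw [Finset.mem_filter] at hx hy hz
      obtain ⟨j1, hj1⟩ := hodd x hx.1 y hy.1 hxy
      obtain ⟨j2, hj2⟩ := hodd x hx.1 z hz.1 hxz
      obtain ⟨j3, hj3⟩ := hodd y hy.1 z hz.1 hyz
      have p1 : (2 * j3 + 1) * s x - (2 * j2 + 1) * s y + (2 * j1 + 1) * s z = 0 := by
        have : (M : ℤ) * ((2 * j3 + 1) * s x - (2 * j2 + 1) * s y + (2 * j1 + 1) * s z) = M * 0 := by
          linear_combination (-(s x)) * hj3 + s y * hj2 - s z * hj1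
        exact mul_left_cancel₀ hM0 this
      have p2 : (2 * j3 + 1) * t x - (2 * j2 + 1) * t y + (2 * j1 + 1) * t z = 0 := by
        have : (M : ℤ) * ((2 * j3 + 1) * t x - (2 * j2 + 1) * t y + (2 * j1 + 1) * t z) = M * 0 := by
          linear_combination (-(t x)) * hj3 + t y * hj2 - t z * hj1
        exact mul_left_cancel₀ hM0 this
      have q1 : s x - s y + s z = -(2 * (j3 * s x - j2 * s y + j1 * s z)) := by linear_combination p1
      have q2 : t x - t y + t z = -(2 * (j3 * t x - j2 * t y + j1 * t z)) := by linear_combination p2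
      generalize j3 * s x - j2 * s y + j1 * s z = A at q1
      generalize j3 * t x - j2 * t y + j1 * t z = B at q2
      have g1 : f x = f y := hx.2.trans hy.2.symm
      have g2 : f x = f z := hx.2.trans hz.2.symm
      simp only [f, Prod.mk.injEq] at g1 g2
      have g3 := hne x hx.1
      omega
  · have hcop : IsCoprime (N : ℤ) 2 := by
      refine ⟨1, -M, ?_⟩
      rw [hM]
      push_cast
      ring
    have : S.card ≤ 1 := by
      rw [Finset.card_le_one]
      intro x hx y hy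
      exact inj x hx y hy (hcop.dvd_of_dvd_mul_left (hd x hx y hy))
    omega

theorem cntb_half {n d1 d2 : ℤ} (h1 : n ∣ 2 * d1) (h2 : n ∣ 2 * d2) (h3 : ¬ n ∣ d1) (h4 : ¬ n ∣ d2) :
    n ∣ d1 - d2 := by
  obtain ⟨k1, hk1⟩ := h1
  obtain ⟨k2, hk2⟩ := h2
  rcases Int.even_or_odd' k1 with ⟨j1, hj1 | hj1⟩
  · exfalso
    apply h3
    refine ⟨j1, ?_⟩
    have : (2 : ℤ) * d1 = 2 * (n * j1) := by rw [hk1, hj1]; ring
    exact mul_left_cancel₀ two_ne_zero this
  · rcases Int.even_or_odd' k2 with ⟨j2, hj2 | hj2⟩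
    · exfalso
      apply h4
      refine ⟨j2, ?_⟩
      have : (2 : ℤ) * d2 = 2 * (n * j2) := by rw [hk2, hj2]; ring
      exact mul_left_cancel₀ two_ne_zero this
    · refine ⟨j1 - j2, ?_⟩
      have : (2 : ℤ) * (d1 - d2) = 2 * (n * (j1 - j2)) := by
        rw [hj1] at hk1
        rw [hj2] at hk2
        linear_combination hk1 - hk2
      exact mul_left_cancel₀ two_ne_zero this

/-- square roots with the same gcd -/
theorem cntb_root {e e' r μ μ0 : ℤ} (hr : μ - μ0 = e * r) (hco : IsCoprime r e') (he : e ≠ 0)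
    (hsq : e * e' ∣ (μ - μ0) * (μ + μ0)) : e' ∣ μ + μ0 := by
  rw [hr, mul_assoc] at hsq
  have h1 : e' ∣ r * (μ + μ0) := Int.dvd_of_mul_dvd_mul_left he hsq
  exact hco.symm.dvd_of_dvd_mul_left h1

theorem st_CNTB : ST_CNTB := by
  classical
  intro N Q n a b c hN hQ hn hdet
  by_cases hfin : (Fx N Q a b c (-a)).Finite
  swap
  · rw [Set.Infinite.ncard hfin]
    exact Nat.zero_le _
  rw [UD, Finset.mem_filter, Nat.mem_divisors] at hQ
  obtain ⟨⟨hQd, -⟩, hco⟩ := hQ
  set N' : ℕ := N / Q with hN'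
  have hNQ : N = Q * N' := (Nat.mul_div_cancel' hQd).symm
  have hQ0 : Q ≠ 0 := by
    intro h0
    rw [h0, zero_mul] at hNQ
    omega
  have hN'0 : N' ≠ 0 := by
    intro h0
    rw [h0, mul_zero] at hNQ
    omega
  have hQ0' : (Q : ℤ) ≠ 0 := by exact_mod_cast hQ0
  have hN'0' : (N' : ℤ) ≠ 0 := by exact_mod_cast hN'0
  have hNN : (N' : ℤ) ∣ (N : ℤ) := ⟨(Q : ℤ), by rw [hNQ]; push_cast; ring⟩
  have hNZ : (N : ℤ) = Q * N' := by rw [hNQ]; push_cast; ring
  have hcoZ : IsCoprime (Q : ℤ) (N' : ℤ) := Nat.isCoprime_iff_coprime.2 hco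
  have hex : ∀ x : PN N, ∃ s t μ : ℤ, x ∈ Fx N Q a b c (-a) →
      (∃ h : Uni N s t, x = Quotient.mk (sPN N) ⟨(s, t), h⟩) ∧ (Q : ℤ) ∣ μ ∧
      (N : ℤ) ∣ s * a + t * c - μ * s ∧ (N : ℤ) ∣ s * b + t * (-a) - μ * t := by
    intro x
    by_cases hx : x ∈ Fx N Q a b c (-a)
    · obtain ⟨s, t, μ, h, h1, h2, h3, h4⟩ := hx
      exact ⟨s, t, μ, fun _ => ⟨⟨h, h1⟩, h2, h3, h4⟩⟩
    · exact ⟨0, 0, 0, fun h => absurd h hx⟩
  choose s t μ hst using hex
  rw [Set.ncard_eq_toFinset_card _ hfin]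
  set S : Finset (PN N) := hfin.toFinset with hS
  have hmem : ∀ x ∈ S, (∃ h : Uni N (s x) (t x), x = Quotient.mk (sPN N) ⟨(s x, t x), h⟩) ∧
      (Q : ℤ) ∣ μ x ∧ (N : ℤ) ∣ s x * a + t x * c - μ x * s x ∧
      (N : ℤ) ∣ s x * b + t x * (-a) - μ x * t x := by
    intro x hx
    exact hst x ((Set.Finite.mem_toFinset hfin).1 hx)
  rcases S.eq_empty_or_nonempty with hemp | ⟨x0, hx0⟩
  · rw [hemp, Finset.card_empty]
    exact Nat.zero_le _
  have hu0 : IsCoprime (μ x0) (N' : ℤ) := by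
    obtain ⟨⟨h, -⟩, -, h3, h4⟩ := hmem x0 hx0
    exact cntb_unit hNQ hco hn h hdet h3 h4
  have hsq : ∀ x ∈ S, (N : ℤ) ∣ μ x * μ x + n * Q := by
    intro x hx
    obtain ⟨⟨h, -⟩, -, h3, h4⟩ := hmem x hx
    exact cntb_sq h hdet h3 h4
  have hprod : ∀ x ∈ S, (N' : ℤ) ∣ (μ x - μ x0) * (μ x + μ x0) := by
    intro x hx
    have e : (μ x - μ x0) * (μ x + μ x0) = (μ x * μ x + n * Q) - (μ x0 * μ x0 + n * Q) := by ring
    rw [e]
    exact hNN.trans (dvd_sub (hsq x hx) (hsq x0 hx0))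
  -- same gcd
  have hgcd : ∀ (e : ℕ), ∀ x ∈ S, Int.gcd (μ x - μ x0) N' = e → ∀ y ∈ S, Int.gcd (μ y - μ x0) N' = e →
      (N' : ℤ) ∣ 2 * (μ x - μ y) := by
    intro e x hx hxe y hy hye
    have key : ∀ z ∈ S, Int.gcd (μ z - μ x0) N' = e → ∃ e' : ℤ, (N' : ℤ) = e * e' ∧
        (e : ℤ) ∣ μ z - μ x0 ∧ e' ∣ μ z + μ x0 := by
      intro z hz hze
      have g1 : (e : ℤ) ∣ μ z - μ x0 := by rw [← hze]; exact Int.gcd_dvd_left _ _
      have g2 : (e : ℤ) ∣ (N' : ℤ) := by rw [← hze]; exact Int.gcd_dvd_right _ _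
      obtain ⟨r, hr⟩ := g1
      obtain ⟨e', he'⟩ := g2
      have he0 : (e : ℤ) ≠ 0 := by
        intro h0
        rw [h0, zero_mul] at he'
        exact hN'0' he'
      refine ⟨e', he', ⟨r, hr⟩, ?_⟩
      have hco' : IsCoprime r e' := by
        have h5 := Int.gcd_eq_gcd_ab (μ z - μ x0) N'
        rw [hze] at h5
        refine ⟨Int.gcdA (μ z - μ x0) N', Int.gcdB (μ z - μ x0) N', ?_⟩
        have h6 : (e : ℤ) * (Int.gcdA (μ z - μ x0) N' * r + Int.gcdB (μ z - μ x0) N' * e') = e * 1 := by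
          calc (e : ℤ) * (Int.gcdA (μ z - μ x0) N' * r + Int.gcdB (μ z - μ x0) N' * e')
              = (e * r) * Int.gcdA (μ z - μ x0) N' + (e * e') * Int.gcdB (μ z - μ x0) N' := by ring
            _ = (μ z - μ x0) * Int.gcdA (μ z - μ x0) N' + (N' : ℤ) * Int.gcdB (μ z - μ x0) N' := by
                rw [← hr, ← he']
            _ = e * 1 := by rw [mul_one]; exact h5.symm
        exact mul_left_cancel₀ he0 h6
      refine cntb_root hr hco' he0 ?_
      rw [← he']
      exact hprod z hz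
    obtain ⟨e1, a1, a2, a3⟩ := key x hx hxe
    obtain ⟨e2, b1, b2, b3⟩ := key y hy hye
    have he0 : (e : ℤ) ≠ 0 := by
      intro h0
      rw [h0, zero_mul] at a1
      exact hN'0' a1
    have h12 : e2 = e1 := mul_left_cancel₀ he0 (b1.symm.trans a1)
    rw [h12] at b3
    have c1 : (e : ℤ) ∣ μ x - μ y := by
      have : μ x - μ y = (μ x - μ x0) - (μ y - μ x0) := by ring
      rw [this]
      exact dvd_sub a2 b2
    have c2 : e1 ∣ μ x - μ y := by
      have : μ x - μ y = (μ x + μ x0) - (μ y + μ x0) := by ring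
      rw [this]
      exact dvd_sub a3 b3
    obtain ⟨α, β, hαβ⟩ := hu0
    have d1 : (N' : ℤ) ∣ (μ x - μ y) * (μ x + μ x0) := by rw [a1]; exact mul_dvd_mul c1 a3
    have d2 : (N' : ℤ) ∣ (μ x - μ x0) * (μ x - μ y) := by rw [a1]; exact mul_dvd_mul a2 c2
    have e3 : 2 * (μ x - μ y) = α * ((μ x - μ y) * (μ x + μ x0)) - α * ((μ x - μ x0) * (μ x - μ y)) +
        N' * (β * (2 * (μ x - μ y))) := by
      linear_combination (-(2 * (μ x - μ y))) * hαβ
    rw [e3]
    exact dvd_add (dvd_sub (d1.mul_left _) (d2.mul_left _)) (dvd_mul_right _ _)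
  -- first level
  have hmaps1 : ∀ x ∈ S, (fun x => Int.gcd (μ x - μ x0) N') x ∈ N'.divisors := by
    intro x _
    rw [Nat.mem_divisors]
    refine ⟨?_, hN'0⟩
    have : ((Int.gcd (μ x - μ x0) N' : ℕ) : ℤ) ∣ (N' : ℤ) := Int.gcd_dvd_right _ _
    exact_mod_cast this
  have hcard1 := Finset.card_le_mul_card_image_of_maps_to hmaps1 12 ?_
  · have hsub : N'.divisors ⊆ N.divisors := by
      refine Nat.divisors_subset_of_dvd (by omega) ⟨Q, ?_⟩
      rw [hNQ]
      ring
    have hle := Finset.card_le_card hsub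
    calc S.card ≤ 12 * N'.divisors.card := hcard1
      _ ≤ 12 * N.divisors.card := Nat.mul_le_mul_left _ hle
  · intro e _
    set F : Finset (PN N) := S.filter (fun x => (fun x => Int.gcd (μ x - μ x0) N') x = e) with hF
    rcases F.eq_empty_or_nonempty with hFe | ⟨x1, hx1⟩
    · rw [hFe, Finset.card_empty]
      exact Nat.zero_le _
    have hFm : ∀ x ∈ F, x ∈ S ∧ Int.gcd (μ x - μ x0) N' = e := by
      intro x hx
      rw [hF, Finset.mem_filter] at hx
      exact hx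
    have hmaps2 : ∀ x ∈ F, (fun x => decide ((N' : ℤ) ∣ μ x - μ x1)) x ∈ (Finset.univ : Finset Bool) :=
      fun x _ => Finset.mem_univ _
    have hcard2 := Finset.card_le_mul_card_image_of_maps_to hmaps2 6 ?_
    · rw [Finset.card_univ, Fintype.card_bool] at hcard2
      exact hcard2
    · intro β _
      refine cntb_six hN _ s t ?_ ?_
      · intro x hx
        rw [Finset.mem_filter] at hx
        exact (hmem x (hFm x hx.1).1).1
      · intro x hx y hy
        rw [Finset.mem_filter] at hx hy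
        have hxS := (hFm x hx.1).1
        have hyS := (hFm y hy.1).1
        have hxy : (N' : ℤ) ∣ μ y - μ x := by
          have k1 := hgcd e x hxS (hFm x hx.1).2 x1 (hFm x1 hx1).1 (hFm x1 hx1).2
          have k2 := hgcd e y hyS (hFm y hy.1).2 x1 (hFm x1 hx1).1 (hFm x1 hx1).2
          have e5 : μ y - μ x = (μ y - μ x1) - (μ x - μ x1) := by ring
          rw [e5]
          have hx2 : decide ((N' : ℤ) ∣ μ x - μ x1) = β := hx.2
          have hy2 : decide ((N' : ℤ) ∣ μ y - μ x1) = β := hy.2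
          cases β with
          | true =>
            exact dvd_sub (of_decide_eq_true hy2) (of_decide_eq_true hx2)
          | false =>
            exact cntb_half k2 k1 (of_decide_eq_false hy2) (of_decide_eq_false hx2)
        obtain ⟨⟨u1, -⟩, u2, u3, u4⟩ := hmem x hxS
        obtain ⟨-, v2, v3, v4⟩ := hmem y hyS
        have hxyN : (N : ℤ) ∣ μ y - μ x := by
          rw [hNZ]
          exact hcoZ.mul_dvd (dvd_sub v2 u2) hxy
        exact cntb_det hQ0' hNQ hco hn u1 hdet u2 u3 u4 v3 v4 hxyN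

end Pool.Agent.Helper96.MP
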