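import Pool.Agent.Helper9.MP.Lat

/-!
# MP_bde085_nt, block D, module HB: bound for periods
-/

set_option autoImplicit false

namespace Pool.Agent.Helper96.MP

open Complex MeasureTheory Filter Topology
open scoped MatrixGroups

theorem hb_pt {C0 : ℝ} (hUB : ∀ (N : ℕ) (b : ℕ → ℂ), 1 ≤ N → Cusp N b →
    ∀ h : SL(2, ℤ), ∀ z : ℂ, 4 / 5 ≤ z.im → gsq b h z * z.im ^ 2 ≤ C0 * nrm N b)
    {N : ℕ} {b : ℕ → ℂ} (hN : 1 ≤ N) (hb : Cusp N b) {z : ℂ} (hz : z ∈ UH) :
    z.im * ‖qs b z‖ ≤ Real.sqrt (C0 * nrm N b) := by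
  obtain ⟨g, hg⟩ := Lib.exists_mob_SB hz
  have hw : mob g z ∈ UH := Lib.mob_mem g hz
  have h1 := hUB N b hN hb g⁻¹ (mob g z) hg.2
  rw [Lib.gsq_im b g⁻¹ hw, Lib.mob_inv_mob g hz, ← mul_pow] at h1
  exact Real.le_sqrt_of_sq_le h1

/-- the primitive along a vertical segment -/
theorem hb_vert {b : ℕ → ℂ} {E : ℝ} (hE : ∀ z ∈ UH, z.im * ‖qs b z‖ ≤ E)
    (hd : ∀ τ ∈ UH, HasDerivAt (Fs b) (2 * (Real.pi : ℂ) * I * qs b τ) τ) (x r : ℝ) (hr : 1 ≤ r) :
    ‖Fs b ((x : ℂ) + I * ((1 / r : ℝ) : ℂ)) - Fs b ((x : ℂ) + I)‖ ≤ 2 * Real.pi * E * Real.log r := by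
  have hr0 : 0 < r := by linarith
  have him : ∀ t : ℝ, ((x : ℂ) + I * (Real.exp t : ℂ)).im = Real.exp t := by
    intro t
    rw [Complex.add_im, Complex.ofReal_im, Complex.I_mul_im, Complex.ofReal_re, zero_add]
  have hmem : ∀ t : ℝ, ((x : ℂ) + I * (Real.exp t : ℂ)) ∈ UH := by
    intro t
    show 0 < ((x : ℂ) + I * (Real.exp t : ℂ)).im
    rw [him]
    exact Real.exp_pos t
  have hder : ∀ t : ℝ, HasDerivAt (fun t : ℝ => Fs b ((x : ℂ) + I * (Real.exp t : ℂ)))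
      (2 * (Real.pi : ℂ) * I * qs b ((x : ℂ) + I * (Real.exp t : ℂ)) * (I * (Real.exp t : ℂ))) t := by
    intro t
    have h1 : HasDerivAt (fun t : ℝ => (x : ℂ) + I * (Real.exp t : ℂ)) (I * (Real.exp t : ℂ)) t :=
      ((Real.hasDerivAt_exp t).ofReal_comp.const_mul I).const_add (x : ℂ)
    exact (hd _ (hmem t)).comp t h1
  have hbound : ∀ t : ℝ, ‖2 * (Real.pi : ℂ) * I * qs b ((x : ℂ) + I * (Real.exp t : ℂ)) *
      (I * (Real.exp t : ℂ))‖ ≤ 2 * Real.pi * E := by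
    intro t
    have h1 := hE _ (hmem t)
    rw [him] at h1
    have e1 : ‖2 * (Real.pi : ℂ) * I * qs b ((x : ℂ) + I * (Real.exp t : ℂ)) *
        (I * (Real.exp t : ℂ))‖ = 2 * Real.pi * (Real.exp t * ‖qs b ((x : ℂ) + I * (Real.exp t : ℂ))‖) := by
      rw [norm_mul, norm_mul, norm_mul, norm_mul, norm_mul, Complex.norm_I, Complex.norm_real,
        Complex.norm_real, Real.norm_eq_abs, Real.norm_eq_abs, abs_of_pos Real.pi_pos,
        abs_of_pos (Real.exp_pos t)]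
      simp
      ring
    rw [e1]
    exact mul_le_mul_of_nonneg_left h1 (by positivity)
  have key := Convex.norm_image_sub_le_of_norm_hasDerivWithin_le (𝕜 := ℝ)
    (f := fun t : ℝ => Fs b ((x : ℂ) + I * (Real.exp t : ℂ)))
    (s := Set.univ) (C := 2 * Real.pi * E) (x := 0) (y := -Real.log r)
    (fun t _ => (hder t).hasDerivWithinAt) (fun t _ => hbound t) convex_univ (Set.mem_univ _)
    (Set.mem_univ _)
  have e2 : Real.exp (-Real.log r) = 1 / r := by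
    rw [Real.exp_neg, Real.exp_log hr0, one_div]
  simp only [e2, Real.exp_zero, Complex.ofReal_one, mul_one, sub_zero, norm_neg] at key
  rw [Real.norm_eq_abs, abs_of_nonneg (Real.log_nonneg hr)] at key
  exact key

/-- the primitive along a horizontal segment at height one -/
theorem hb_horiz {b : ℕ → ℂ} {E : ℝ} (hE : ∀ z ∈ UH, z.im * ‖qs b z‖ ≤ E)
    (hd : ∀ τ ∈ UH, HasDerivAt (Fs b) (2 * (Real.pi : ℂ) * I * qs b τ) τ) (x y : ℝ) :
    ‖Fs b ((y : ℂ) + I) - Fs b ((x : ℂ) + I)‖ ≤ 2 * Real.pi * E * |y - x| := by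
  have hmem : ∀ t : ℝ, ((t : ℂ) + I) ∈ UH := by
    intro t
    simp [UH]
  have him : ∀ t : ℝ, ((t : ℂ) + I).im = 1 := by
    intro t
    simp
  have hder : ∀ t : ℝ, HasDerivAt (fun t : ℝ => Fs b ((t : ℂ) + I))
      (2 * (Real.pi : ℂ) * I * qs b ((t : ℂ) + I)) t := by
    intro t
    have h1 : HasDerivAt (fun t : ℝ => (t : ℂ) + I) 1 t := by
      have := (hasDerivAt_id' t).ofReal_comp.add_const I
      simpa using this
    have h2 := (hd _ (hmem t)).comp t h1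
    rw [mul_one] at h2
    exact h2
  have hbound : ∀ t : ℝ, ‖2 * (Real.pi : ℂ) * I * qs b ((t : ℂ) + I)‖ ≤ 2 * Real.pi * E := by
    intro t
    have h1 := hE _ (hmem t)
    rw [him, one_mul] at h1
    have e1 : ‖2 * (Real.pi : ℂ) * I * qs b ((t : ℂ) + I)‖ = 2 * Real.pi * ‖qs b ((t : ℂ) + I)‖ := by
      rw [norm_mul, norm_mul, norm_mul, Complex.norm_I, Complex.norm_real, Real.norm_eq_abs,
        abs_of_pos Real.pi_pos]
      simp
    rw [e1]
    exact mul_le_mul_of_nonneg_left h1 (by positivity)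
  have key := Convex.norm_image_sub_le_of_norm_hasDerivWithin_le (𝕜 := ℝ)
    (f := fun t : ℝ => Fs b ((t : ℂ) + I))
    (s := Set.univ) (C := 2 * Real.pi * E) (x := x) (y := y)
    (fun t _ => (hder t).hasDerivWithinAt) (fun t _ => hbound t) convex_univ (Set.mem_univ _)
    (Set.mem_univ _)
  rw [Real.norm_eq_abs] at key
  exact key

theorem st_HB (hU : ST_UB) (hQ : ST_QDIF) (hF : ST_FLIM) : ST_HB := by
  obtain ⟨C0, hC0, hUB⟩ := hU
  refine ⟨4 * Real.pi * Real.sqrt C0, by positivity, ?_⟩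
  intro N b hN hb
  obtain ⟨-, -, hd, -, -, -⟩ := hQ N b hN hb
  obtain ⟨-, hHom, -, hPer, -⟩ := hF N b hN hb
  set E : ℝ := Real.sqrt (C0 * nrm N b) with hE
  have hE0 : 0 ≤ E := Real.sqrt_nonneg _
  have hEE : E = Real.sqrt C0 * Real.sqrt (nrm N b) := by
    rw [hE, Real.sqrt_mul hC0.le]
  have hpt : ∀ z ∈ UH, z.im * ‖qs b z‖ ≤ E := fun z hz => hb_pt hUB hN hb hz
  -- positive lower left entry
  have hpos : ∀ p q r s : ℤ, G0 N p q r s → 0 < r →
      ‖FC b p r - FC b 1 0‖ ≤ 4 * Real.pi * E * (1 + Real.log (1 + |(r : ℝ)|)) := by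
    intro p q r s hG hr
    have hrR : (1 : ℝ) ≤ (r : ℝ) := by exact_mod_cast hr
    have hr0 : (0 : ℝ) < (r : ℝ) := by linarith
    have hrC : ((r : ℝ) : ℂ) ≠ 0 := Complex.ofReal_ne_zero.2 hr0.ne'
    have hrC' : (r : ℂ) ≠ 0 := by exact_mod_cast hrC
    set x1 : ℝ := -(s : ℝ) / r with hx1
    set x2 : ℝ := (p : ℝ) / r with hx2
    have hz0 : ((x1 : ℂ) + I * ((1 / (r : ℝ) : ℝ) : ℂ)) ∈ UH := by
      simp [UH, hr0]
    have h1 := hPer p q r s hG _ hz0
    have hdet : (p : ℂ) * s - q * r = 1 := by exact_mod_cast congrArg (fun n : ℤ => (n : ℂ)) hG.1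
    have h2 : mo p q r s ((x1 : ℂ) + I * ((1 / (r : ℝ) : ℝ) : ℂ)) = (x2 : ℂ) + I * ((1 / (r : ℝ) : ℝ) : ℂ) := by
      unfold mo
      have hden : (r : ℂ) * ((x1 : ℂ) + I * ((1 / (r : ℝ) : ℝ) : ℂ)) + (s : ℂ) = I := by
        rw [hx1]
        push_cast
        field_simp
        ring
      rw [hden, hx1, hx2]
      push_cast
      rw [div_eq_iff Complex.I_ne_zero]
      field_simp
      linear_combination (-1 : ℂ) * hdet - Complex.I_sq
    rw [h2] at h1
    rw [← h1]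
    -- translation
    set k : ℤ := ⌊x2 - x1⌋ with hk
    have h3 : Fs b ((x2 : ℂ) + I) = Fs b (((x2 - k : ℝ) : ℂ) + I) := by
      have hm : (((x2 - k : ℝ) : ℂ) + I) ∈ UH := by simp [UH]
      have h4 := hPer 1 k 0 1 ⟨by ring, dvd_zero _⟩ _ hm
      have h5 : mo 1 k 0 1 (((x2 - k : ℝ) : ℂ) + I) = (x2 : ℂ) + I := by
        unfold mo
        push_cast
        rw [zero_mul, zero_add, div_one]
        ring
      rw [h5, sub_self, sub_eq_zero] at h4
      exact h4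
    have h6 : |x2 - k - x1| ≤ 1 := by
      have a1 := Int.floor_le (x2 - x1)
      have a2 := Int.lt_floor_add_one (x2 - x1)
      rw [abs_le]
      constructor <;> linarith
    have v1 := hb_vert hpt hd x1 r hrR
    have v2 := hb_vert hpt hd x2 r hrR
    have v3 := hb_horiz hpt hd x1 (x2 - k)
    rw [← h3] at v3
    have v4 : 2 * Real.pi * E * |x2 - k - x1| ≤ 2 * Real.pi * E * 1 :=
      mul_le_mul_of_nonneg_left h6 (by positivity)
    have e1 : Fs b ((x2 : ℂ) + I * ((1 / (r : ℝ) : ℝ) : ℂ)) - Fs b ((x1 : ℂ) + I * ((1 / (r : ℝ) : ℝ) : ℂ))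
        = (Fs b ((x2 : ℂ) + I * ((1 / (r : ℝ) : ℝ) : ℂ)) - Fs b ((x2 : ℂ) + I)) +
          (Fs b ((x2 : ℂ) + I) - Fs b ((x1 : ℂ) + I)) -
          (Fs b ((x1 : ℂ) + I * ((1 / (r : ℝ) : ℝ) : ℂ)) - Fs b ((x1 : ℂ) + I)) := by ring
    have e2 : ‖Fs b ((x2 : ℂ) + I * ((1 / (r : ℝ) : ℝ) : ℂ)) - Fs b ((x1 : ℂ) + I * ((1 / (r : ℝ) : ℝ) : ℂ))‖
        ≤ 2 * Real.pi * E * Real.log r + 2 * Real.pi * E * 1 + 2 * Real.pi * E * Real.log r := by
      rw [e1]
      refine (norm_sub_le _ _).trans ?_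
      refine add_le_add ((norm_add_le _ _).trans (add_le_add v2 (v3.trans v4))) v1
    refine e2.trans ?_
    have e3 : Real.log r ≤ Real.log (1 + |(r : ℝ)|) := by
      refine Real.log_le_log hr0 ?_
      have := le_abs_self (r : ℝ)
      linarith
    have e4 : 0 ≤ 2 * Real.pi * E := by positivity
    nlinarith [mul_le_mul_of_nonneg_left e3 e4]
  intro p q r s hG
  have hgoal : 4 * Real.pi * Real.sqrt C0 * Real.sqrt (nrm N b) * (1 + Real.log (1 + |(r : ℝ)|))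
      = 4 * Real.pi * E * (1 + Real.log (1 + |(r : ℝ)|)) := by
    rw [hEE]
    ring
  rw [hgoal]
  rcases lt_trichotomy r 0 with hr | hr | hr
  · have hG' : G0 N (-p) (-q) (-r) (-s) := by
      refine ⟨?_, (dvd_neg).2 hG.2⟩
      have := hG.1
      linarith
    have h1 := hpos _ _ _ _ hG' (by linarith)
    have h2 : FC b (-p) (-r) = FC b p r := by
      have := hHom (-1) p r (by norm_num)
      simpa using this
    rw [h2] at h1
    have h3 : |((-r : ℤ) : ℝ)| = |(r : ℝ)| := by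
      push_cast
      exact abs_neg _
    rw [h3] at h1
    exact h1
  · rw [hr]
    have h1 : FC b p 0 = 0 := by simp [FC]
    have h2 : FC b 1 0 = 0 := by simp [FC]
    rw [h1, h2, sub_zero, norm_zero]
    simp only [Int.cast_zero, abs_zero, add_zero, Real.log_one, mul_one]
    positivity
  · exact hpos _ _ _ _ hG hr

end Pool.Agent.Helper96.MP
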